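import Pool.Agent.Lib.MP_3bb35d_al.Mg.G034
import Pool.Agent.Lib.MP_3bb35d_al.Mg.G033

/-!
# The criterion by tiny sets, for large `p`
-/

set_option autoImplicit false

open Finset

namespace Pool.Agent.Lib.MP_3bb35d_al.LE

open Pool.Agent.Lib.MP_3bb35d_al.UE

/-- The lazy uniform measure of a set. -/
noncomputable def lazy {G : Type*} [Group G] (T : Set G) (g : G) : ℝ := (dl 1 g + unif T g) / 2

private theorem F2_dl_one {G : Type*} [Group G] : dl (1 : G) 1 = 1 := by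
  unfold dl
  exact Set.indicator_of_mem (Set.mem_singleton _) _

private theorem F2_dl_ne {G : Type*} [Group G] {g : G} (h : g ≠ 1) : dl (1 : G) g = 0 := by
  unfold dl
  exact Set.indicator_of_notMem (fun h' => h (Set.mem_singleton_iff.1 h')) _

private theorem F2_dl_nonneg {G : Type*} [Group G] (g : G) : 0 ≤ dl (1 : G) g := by
  unfold dl
  exact Set.indicator_nonneg (fun _ _ => zero_le_one) _

/-- PROOF: `SP_unif`, `dl 1` is SP. -/
theorem SP_lazy {G : Type*} [Group G] [Fintype G] {T : Set G} (h1 : T.Nonempty)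
    (h2 : ∀ g ∈ T, g⁻¹ ∈ T) : SP (lazy T) := by
  have hu := SP_unif h1 h2
  refine ⟨fun g => ?_, ?_, fun g => ?_⟩
  · unfold lazy
    have := hu.nonneg g
    have := F2_dl_nonneg g
    linarith
  · unfold lazy
    rw [← Finset.sum_div, Finset.sum_add_distrib, hu.sum]
    have h3 : ∑ g : G, dl (1 : G) g = 1 := by
      rw [Finset.sum_eq_single (1 : G) (fun g _ hg => F2_dl_ne hg)
        (fun h => absurd (Finset.mem_univ _) h)]
      exact F2_dl_one
    rw [h3]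
    norm_num
  · unfold lazy
    rw [hu.symm g]
    have h3 : dl (1 : G) g⁻¹ = dl 1 g := by
      by_cases hg : g = 1
      · rw [hg, inv_one]
      · rw [F2_dl_ne hg, F2_dl_ne (fun h => hg (inv_eq_one.1 h))]
    rw [h3]

/-- PROOF: `conv ν ν s ≥ ν 1 * ν s`-type terms: `ν 1 * ν s + ν s * ν 1` if `s ≠ 1`, each at least `(1/2) (1 / (2 |T|))`; one of them is enough: `ν 1 ≥ 1/2`, `ν s ≥ 1 / (2 |T|)`, so `conv ν ν s ≥ 1 / (4 |T|)`. -/
theorem conv_lazy {G : Type*} [Group G] [Fintype G] {T : Set G} {s : G} (hs : s ∈ T) :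
    1 / (4 * (T.ncard : ℝ)) ≤ conv (lazy T) (lazy T) s := by
  have hun : ∀ g, 0 ≤ unif T g := fun g => by
    unfold unif
    exact Set.indicator_nonneg (fun _ _ => by positivity) _
  have hln : ∀ g, 0 ≤ lazy T g := fun g => by
    unfold lazy
    have := hun g
    have := F2_dl_nonneg g
    linarith
  have h1 : lazy T 1 * lazy T (1⁻¹ * s) ≤ conv (lazy T) (lazy T) s := by
    unfold conv
    exact Finset.single_le_sum (f := fun h => lazy T h * lazy T (h⁻¹ * s))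
      (fun h _ => mul_nonneg (hln _) (hln _)) (Finset.mem_univ (1 : G))
  refine le_trans ?_ h1
  rw [inv_one, one_mul]
  have h2 : 1 / 2 ≤ lazy T 1 := by
    unfold lazy
    rw [F2_dl_one]
    have := hun 1
    linarith
  have h3 : 1 / (2 * (T.ncard : ℝ)) ≤ lazy T s := by
    unfold lazy
    have h4 : unif T s = 1 / (T.ncard : ℝ) := Set.indicator_of_mem hs _
    rw [h4]
    have h5 := F2_dl_nonneg s
    have h6 : 1 / (2 * (T.ncard : ℝ)) = (1 / (T.ncard : ℝ)) / 2 := by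
      rw [div_div, mul_comm]
    rw [h6]
    linarith
  calc 1 / (4 * (T.ncard : ℝ)) = 1 / 2 * (1 / (2 * (T.ncard : ℝ))) := by
        rw [div_mul_div_comm]; ring
    _ ≤ lazy T 1 * lazy T s :=
        mul_le_mul h2 h3 (by positivity) (hln 1)

/-- PROOF. `k ≥ 1` as above (or replace `k` by `k + 1`). `η = 1 / (16 (k + 1))`, `τ = 4 k`: `δ', p₁` from `tiny η δ τ`; `ρ, p₂` from `gap_sl2 η 4 δ'`; `ε = (1 - √ρ) ^ 2 / 8`; `p0 ≥ p₁, p₂, 5`. Let `T = toPSL p ⁻¹' sy S` (`lifts`), as a `Finset`, `μ = lazy T`; `SL₂(p)` acts on `X` through `toPSL p` (`MulAction.compHom`, a local instance).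
The hypothesis of `tiny` for a finset `A`: the map `(x, g) ↦ (x, toPSL p g)` sends `{(x, g) | x ∈ A, g ∈ T, g x ∉ A}` onto `{(x, s) | x ∈ A, s ∈ sy S, s x ∉ A}`, so the first set has at least as many elements. Let `r` be the least number with `log p ≤ 2 ^ r`, `2 ^ r ≤ 2 log p`; then `2 ^ (r + 1) ≤ 4 log p`,
`cpow μ (r + 1) 1 = nsq (cpow μ r) ≤ p ^ (-δ')` (`nsq_cpow`, `tiny`). `gap_sl2` with `T₂ = T` (`conv_lazy`, `1 / (4 |T|) ≥ 1 / (16 k) ≥ η`), `r + 1`; `expander_psl`. -/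
theorem tiny_large (k : ℕ) (δ : ℝ) (hδ : 0 < δ) : ∃ ε : ℝ, 0 < ε ∧ ∃ p0 : ℕ, ∀ p : ℕ,
    ∀ _ : Fact p.Prime, p0 ≤ p → ∀ S : Set (PSL2 p), Subgroup.closure S = ⊤ → S.ncard ≤ k →
    ∀ (X : Type) [Finite X] [Nonempty X] [MulAction (PSL2 p) X],
      (∀ A : Set X, (A.ncard : ℝ) ≤ (p : ℝ) ^ δ →
        δ * (A.ncard : ℝ) ≤
          ({q : X × PSL2 p | q.1 ∈ A ∧ q.2 ∈ sy S ∧ q.2 • q.1 ∉ A}.ncard : ℝ)) →
      IsExpander ε S := by
  classical
  obtain ⟨δ', hδ', p₁, htiny⟩ := tiny (1 / (16 * ((k : ℝ) + 1))) δ (4 * k)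
    (by positivity) hδ
  obtain ⟨ρ, hρ0, hρ1, p₂, hgap⟩ := gap_sl2 (1 / (16 * ((k : ℝ) + 1))) 4 δ'
    (by positivity) (by positivity) hδ'
  have hsq : √ρ < 1 := by
    rw [Real.sqrt_lt' one_pos]
    simpa using hρ1
  refine ⟨(1 - √ρ) ^ 2 / 8, by have : 0 < 1 - √ρ := by linarith
                               positivity, max (max p₁ p₂) 5, ?_⟩
  intro p hpF hp S hS hk X hXf hXn hXa hA
  have hfin : Finite (PSL2 p) := Finite.of_surjective _ (toPSL_surj p)
  let hft : Fintype (PSL2 p) := Fintype.ofFinite _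
  let hftX : Fintype X := Fintype.ofFinite _
  have hp5 : 5 ≤ p := (le_max_right _ _).trans hp
  have hpp1 : p₁ ≤ p := ((le_max_left _ _).trans (le_max_left _ _)).trans hp
  have hpp2 : p₂ ≤ p := ((le_max_right _ _).trans (le_max_left _ _)).trans hp
  obtain ⟨hne, hinv, hcard, hcl⟩ := lifts hp5 hS hk
  set T : Set (SL2 p) := toPSL p ⁻¹' sy S with hT
  have hμ : SP (lazy T) := SP_lazy hne hinv
  have hTpos : 0 < T.ncard := (Set.ncard_pos (Set.toFinite T)).2 hne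
  have hTpos' : (0 : ℝ) < (T.ncard : ℝ) := by exact_mod_cast hTpos
  have hTle : (T.ncard : ℝ) ≤ 4 * ((k : ℝ) + 1) := by
    have : (T.ncard : ℝ) ≤ ((4 * k : ℕ) : ℝ) := by exact_mod_cast hcard
    push_cast at this
    linarith
  have hη : ∀ s ∈ T, 1 / (16 * ((k : ℝ) + 1)) ≤ conv (lazy T) (lazy T) s := by
    intro s hs
    refine le_trans ?_ (conv_lazy hs)
    refine one_div_le_one_div_of_le (by positivity) ?_
    linarith
  let act' : MulAction (SL2 p) X := MulAction.compHom X (toPSL p)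
  have hsm : ∀ (g : SL2 p) (x : X), g • x = toPSL p g • x := fun g x => rfl
  have hTf : T.Finite := Set.toFinite T
  have hA' : ∀ A : Finset X, (A.card : ℝ) ≤ (p : ℝ) ^ δ →
      δ * (A.card : ℝ) ≤
        ({q : X × SL2 p | q.1 ∈ A ∧ q.2 ∈ hTf.toFinset ∧ q.2 • q.1 ∉ A}.ncard : ℝ) := by
    intro A hAc
    have h1 := hA (A : Set X) (by rwa [Set.ncard_coe_finset])
    rw [Set.ncard_coe_finset] at h1
    refine h1.trans ?_
    have h2 : ({q : X × PSL2 p | q.1 ∈ (A : Set X) ∧ q.2 ∈ sy S ∧ q.2 • q.1 ∉ (A : Set X)} :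
        Set (X × PSL2 p)) ⊆ (fun q : X × SL2 p => (q.1, toPSL p q.2)) ''
          {q : X × SL2 p | q.1 ∈ A ∧ q.2 ∈ hTf.toFinset ∧ q.2 • q.1 ∉ A} := by
      rintro ⟨x, s⟩ ⟨hx, hs, hsx⟩
      obtain ⟨g, rfl⟩ := toPSL_surj p s
      refine ⟨(x, g), ⟨hx, ?_, ?_⟩, rfl⟩
      · rw [Set.Finite.mem_toFinset]
        exact hs
      · intro h
        exact hsx h
    have h3 := (Set.ncard_le_ncard h2 (Set.toFinite _)).trans
      (Set.ncard_image_le (Set.toFinite _))
    exact_mod_cast h3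
  have hlog : 1 ≤ Real.log p := by
    have h1 : Real.exp 1 ≤ (p : ℝ) := by
      have h2 := Real.exp_one_lt_d9
      have h3 : (5 : ℝ) ≤ (p : ℝ) := by exact_mod_cast hp5
      linarith
    have h4 := Real.log_le_log (Real.exp_pos 1) h1
    rwa [Real.log_exp] at h4
  obtain ⟨r, hr1, hr2⟩ : ∃ r : ℕ, Real.log p ≤ 2 ^ r ∧ (2 : ℝ) ^ r ≤ 2 * Real.log p := by
    have hex : ∃ r : ℕ, Real.log p ≤ 2 ^ r := by
      obtain ⟨r, hr⟩ := pow_unbounded_of_one_lt (Real.log p) (one_lt_two)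
      exact ⟨r, hr.le⟩
    refine ⟨Nat.find hex, Nat.find_spec hex, ?_⟩
    by_cases h0 : Nat.find hex = 0
    · rw [h0]
      simp
      linarith
    · obtain ⟨m, hm⟩ := Nat.exists_eq_succ_of_ne_zero h0
      have h1 := Nat.find_min hex (m := m) (by omega)
      rw [not_le] at h1
      rw [hm, Nat.succ_eq_add_one, pow_succ]
      linarith
  have hret0 : nsq (cpow (lazy T) r) ≤ (p : ℝ) ^ (-δ') := by
    refine htiny p hpp1 (SL2 p) X hTf.toFinset ?_ hA' (lazy T) hμ ?_ r hr1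
    · rw [← Set.ncard_eq_toFinset_card T hTf]
      exact hcard
    · intro s hs
      exact hη s (hTf.mem_toFinset.1 hs)
  have hret : cpow (lazy T) (r + 1) 1 ≤ (p : ℝ) ^ (-δ') := by
    refine le_trans (le_of_eq ?_) hret0
    show conv (cpow (lazy T) r) (cpow (lazy T) r) 1 = nsq (cpow (lazy T) r)
    unfold conv nsq
    refine Finset.sum_congr rfl fun g _ => ?_
    rw [mul_one, (hμ.cpow r).symm g, pow_two]
  have hr4 : (2 : ℝ) ^ (r + 1) ≤ 4 * Real.log p := by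
    rw [pow_succ]
    linarith
  have hg := hgap p hpF hpp2 (lazy T) hμ T hcl hη (r + 1) (by omega) hr4 hret
  refine expander_psl hμ (fun g hg' => ?_) hρ0 hρ1 hg
  by_cases h1 : g = 1
  · exact Or.inl h1
  · right
    by_contra hn'
    apply hg'
    unfold lazy
    have h2 : unif T g = 0 := Set.indicator_of_notMem hn' _
    rw [h2, F2_dl_ne h1]
    norm_num

end Pool.Agent.Lib.MP_3bb35d_al.LE
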