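import Pool.Agent.Lib.MP_3bb35d_al.LE.F2

/-!
# All primes, and the converse
-/

set_option autoImplicit false

open Finset

namespace Pool.Agent.Lib.MP_3bb35d_al.LE

open Pool.Agent.Lib.MP_3bb35d_al.UE

/-- PROOF. `|PSL₂(p)| ≤ |SL₂(p)| ≤ p ^ 4 ≤ p0 ^ 4`, `expander_small` (UE/E1a) and `IsExpander.mono`. -/
theorem small_p (p0 : ℕ) : ∃ ε : ℝ, 0 < ε ∧ ∀ p : ℕ, ∀ _ : Fact p.Prime, p < p0 →
    ∀ S : Set (PSL2 p), Subgroup.closure S = ⊤ → IsExpander ε S := by
  refine ⟨1 / ((p0 : ℝ) ^ 4 + 1), by positivity, ?_⟩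
  intro p hp hlt S hS
  have := hp
  have : NeZero p := ⟨hp.out.ne_zero⟩
  have : Finite (Matrix (Fin 2) (Fin 2) (ZMod p)) := inferInstance
  have : Finite (SL2 p) := Finite.of_injective (fun g : SL2 p => (g : Matrix (Fin 2) (Fin 2) (ZMod p))) Subtype.coe_injective
  have : Finite (PSL2 p) := Finite.of_surjective (QuotientGroup.mk : SL2 p → PSL2 p) QuotientGroup.mk_surjective
  have h1 : Nat.card (PSL2 p) ≤ Nat.card (SL2 p) :=
    Nat.card_le_card_of_surjective (QuotientGroup.mk : SL2 p → PSL2 p) QuotientGroup.mk_surjective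
  have h2 : Nat.card (SL2 p) ≤ Nat.card (Matrix (Fin 2) (Fin 2) (ZMod p)) :=
    Nat.card_le_card_of_injective (fun g : SL2 p => (g : Matrix (Fin 2) (Fin 2) (ZMod p))) Subtype.coe_injective
  have h3 : Nat.card (Matrix (Fin 2) (Fin 2) (ZMod p)) = p ^ 4 := by
    change Nat.card (Fin 2 → Fin 2 → ZMod p) = p ^ 4
    rw [Nat.card_fun, Nat.card_fun, Nat.card_zmod, Nat.card_fin]
    ring
  have h4 : Nat.card (PSL2 p) ≤ p0 ^ 4 := (h1.trans (h2.trans h3.le)).trans (Nat.pow_le_pow_left hlt.le 4)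
  have h5 : 0 < Nat.card (PSL2 p) := Nat.card_pos
  refine (expander_small S hS).mono ?_
  apply one_div_le_one_div_of_le
  · exact_mod_cast h5
  · have : (Nat.card (PSL2 p) : ℝ) ≤ (p0 : ℝ) ^ 4 := by exact_mod_cast h4
    linarith

/-- PROOF: `return_large`, `small_p`, the minimum of the two constants. -/
theorem return_criterion (k : ℕ) (δ : ℝ) (hδ : 0 < δ) : ∃ ε : ℝ, 0 < ε ∧ ∀ p : ℕ,
    ∀ _ : Fact p.Prime, ∀ S : Set (PSL2 p), Subgroup.closure S = ⊤ → S.ncard ≤ k →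
    ∀ n : ℕ, 1 ≤ n → (n : ℝ) ≤ Real.log p / δ →
      ({w : Fin (2 * n) → PSL2 p | (∀ i, w i ∈ sy S) ∧ (List.ofFn w).prod = 1}.ncard : ℝ) ≤
        (p : ℝ) ^ (-δ) * ((sy S).ncard : ℝ) ^ (2 * n) → IsExpander ε S := by
  obtain ⟨ε1, h1, p0, H1⟩ := return_large k δ hδ
  obtain ⟨ε2, h2, H2⟩ := small_p p0
  refine ⟨min ε1 ε2, lt_min h1 h2, ?_⟩
  intro p hp S hS hk n hn hn2 hret
  rcases le_or_gt p0 p with h | h
  · exact (H1 p hp h S hS hk n hn hn2 hret).mono (min_le_left _ _)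
  · exact (H2 p hp h S hS).mono (min_le_right _ _)

/-- PROOF: `tiny_large`, `small_p`. -/
theorem tiny_criterion (k : ℕ) (δ : ℝ) (hδ : 0 < δ) : ∃ ε : ℝ, 0 < ε ∧ ∀ p : ℕ,
    ∀ _ : Fact p.Prime, ∀ S : Set (PSL2 p), Subgroup.closure S = ⊤ → S.ncard ≤ k →
    ∀ (X : Type) [Finite X] [Nonempty X] [MulAction (PSL2 p) X],
      (∀ A : Set X, (A.ncard : ℝ) ≤ (p : ℝ) ^ δ →
        δ * (A.ncard : ℝ) ≤
          ({q : X × PSL2 p | q.1 ∈ A ∧ q.2 ∈ sy S ∧ q.2 • q.1 ∉ A}.ncard : ℝ)) →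
      IsExpander ε S := by
  obtain ⟨ε1, h1, p0, H1⟩ := tiny_large k δ hδ
  obtain ⟨ε2, h2, H2⟩ := small_p p0
  refine ⟨min ε1 ε2, lt_min h1 h2, ?_⟩
  intro p hp S hS hk X _ _ _ hX
  rcases le_or_gt p0 p with h | h
  · exact (H1 p hp h S hS hk X hX).mono (min_le_left _ _)
  · exact (H2 p hp h S hS).mono (min_le_right _ _)

private theorem F3_fib {α β : Type*} [Finite α] [Finite β] (f : α → β) (c : ℕ) (P : Set β)
    (h : ∀ b ∈ P, (f ⁻¹' {b}).ncard = c) : (f ⁻¹' P).ncard = c * P.ncard := by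
  classical
  have := Fintype.ofFinite α
  have := Fintype.ofFinite β
  rw [Set.ncard_eq_toFinset_card', Set.ncard_eq_toFinset_card',
    Finset.card_eq_sum_card_fiberwise (f := f) (t := P.toFinset) (by intro a ha; simpa using ha),
    Finset.sum_const_nat (m := c), mul_comm]
  intro b hb
  have hb' : b ∈ P := by simpa using hb
  rw [← h b hb', Set.ncard_eq_toFinset_card']
  congr 1
  ext a
  simp only [Finset.mem_filter, Set.mem_toFinset, Set.mem_preimage, Set.mem_singleton_iff]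
  constructor
  · exact fun ha => ha.2
  · exact fun ha => ⟨by rw [ha]; exact hb', ha⟩

private theorem F3_stab {G X : Type*} [Group G] [Finite G] [MulAction G X]
    [MulAction.IsPretransitive G X] (x₀ x : X) :
    ((fun g : G => g⁻¹ • x₀) ⁻¹' {x}).ncard = ((MulAction.stabilizer G x₀ : Subgroup G) : Set G).ncard := by
  obtain ⟨g1, h1⟩ := MulAction.exists_smul_eq G x x₀
  refine Set.ncard_congr (fun g _ => g1 * g⁻¹) ?_ ?_ ?_
  · intro g hg
    have hg' : g⁻¹ • x₀ = x := hg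
    show g1 * g⁻¹ ∈ MulAction.stabilizer G x₀
    rw [MulAction.mem_stabilizer_iff, mul_smul, hg', h1]
  · intro a b _ _ hab
    have := mul_left_cancel hab
    exact inv_injective this
  · intro s hs
    have hs' : s • x₀ = x₀ := MulAction.mem_stabilizer_iff.1 hs
    refine ⟨s⁻¹ * g1, ?_, by group⟩
    show (s⁻¹ * g1)⁻¹ • x₀ = x
    rw [mul_inv_rev, inv_inv, mul_smul, hs', inv_smul_eq_iff, h1]


/-- The converse, for every finite group. PROOF. Let `x₀ : X`, `B = {g | g⁻¹ • x₀ ∈ A}`. All fibres of `g ↦ g⁻¹ • x₀` have the same number `c = |G| / |X|` of elements (transitive action), so `|B| = c |A|` and `2 |B| ≤ |G|`. `ε |B| ≤ |bdry S B|`. The pairs `(g, h) ∈ bdry S B` are `(g, g s)` with `s ∈ sy S`, `x = g⁻¹ • x₀ ∈ A`, `(g s)⁻¹ • x₀ = s⁻¹ • x ∉ A`: the map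
`(g, h) ↦ (g, h⁻¹ g) = (g, s⁻¹)` is injective with values in `{(g, t) | g⁻¹ • x₀ ∈ A, t ∈ sy S, t • (g⁻¹ • x₀) ∉ A}`, which has `c * #{(x, t) | x ∈ A, t ∈ sy S, t • x ∉ A}` elements. Divide by `c`. -/
theorem converse {G X : Type*} [Group G] [Finite G] [Finite X] [MulAction G X]
    [MulAction.IsPretransitive G X] {S : Set G} {ε : ℝ} (h : IsExpander ε S) (A : Set X)
    (hA : 2 * A.ncard ≤ Nat.card X) :
    ε * (A.ncard : ℝ) ≤ ({q : X × G | q.1 ∈ A ∧ q.2 ∈ sy S ∧ q.2 • q.1 ∉ A}.ncard : ℝ) := by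
  classical
  rcases isEmpty_or_nonempty X with hX | ⟨⟨x₀⟩⟩
  · have : A = ∅ := Set.eq_empty_of_isEmpty A
    rw [this, Set.ncard_empty, Nat.cast_zero, mul_zero]
    positivity
  set c := ((MulAction.stabilizer G x₀ : Subgroup G) : Set G).ncard with hc
  have hcpos : 0 < c := by
    rw [hc, Set.ncard_pos (Set.toFinite _)]
    exact ⟨1, Subgroup.one_mem _⟩
  set f : G → X := fun g => g⁻¹ • x₀ with hf
  have hfib : ∀ x, (f ⁻¹' {x}).ncard = c := fun x => F3_stab x₀ x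
  have hB : (f ⁻¹' A).ncard = c * A.ncard := F3_fib f c A fun x _ => hfib x
  have hG : Nat.card G = c * Nat.card X := by
    have := F3_fib f c Set.univ fun x _ => hfib x
    rw [Set.preimage_univ, Set.ncard_univ, Set.ncard_univ] at this
    exact this
  have h1 := h (f ⁻¹' A) (by
    rw [hB, hG]
    calc 2 * (c * A.ncard) = c * (2 * A.ncard) := by ring
      _ ≤ c * Nat.card X := Nat.mul_le_mul_left _ hA)
  set P : Set (X × G) := {q : X × G | q.1 ∈ A ∧ q.2 ∈ sy S ∧ q.2 • q.1 ∉ A} with hP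
  set F : G × G → X × G := fun q => (f q.1, q.2) with hF
  have h2 : (F ⁻¹' P).ncard = c * P.ncard := by
    refine F3_fib F c P ?_
    rintro ⟨x, t⟩ _
    rw [← hfib x]
    symm
    refine Set.ncard_congr (fun g _ => (g, t)) ?_ ?_ ?_
    · intro g hg
      have hg' : f g = x := hg
      show F (g, t) = (x, t)
      simp only [hF]
      rw [hg']
    · intro a b _ _ hab
      exact (Prod.mk.inj hab).1
    · rintro ⟨g, s⟩ hq
      have hq' : F (g, s) = (x, t) := hq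
      simp only [hF, Prod.mk.injEq] at hq'
      exact ⟨g, hq'.1, by rw [hq'.2]⟩
  have h3 : (bdry S (f ⁻¹' A)).ncard ≤ (F ⁻¹' P).ncard := by
    refine Set.ncard_le_ncard_of_injOn (fun e : G × G => (e.1, e.2⁻¹ * e.1)) ?_ ?_ (Set.toFinite _)
    · rintro ⟨g, h'⟩ ⟨ha, hb, s, hs, hsh⟩
      simp only at ha hb hsh
      show F (g, h'⁻¹ * g) ∈ P
      simp only [hF, hP, Set.mem_ofPred_eq]
      refine ⟨ha, ?_, ?_⟩
      · rcases hsh with hsh | hsh
        · right
          show (h'⁻¹ * g)⁻¹ ∈ S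
          rw [hsh]
          have : ((g * s)⁻¹ * g)⁻¹ = s := by group
          rw [this]
          exact hs
        · left
          show h'⁻¹ * g ∈ S
          rw [hsh]
          have : h'⁻¹ * (h' * s) = s := by group
          rw [this]
          exact hs
      · intro hmem
        apply hb
        show f h' ∈ A
        simp only [hf] at hmem ⊢
        rw [mul_smul, smul_inv_smul] at hmem
        exact hmem
    · rintro ⟨g, h'⟩ _ ⟨g2, h2'⟩ _ hab
      simp only [Prod.mk.injEq] at hab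
      obtain ⟨hg, hh⟩ := hab
      subst hg
      have := mul_right_cancel hh
      rw [inv_injective this]
  have h4 : ε * ((c : ℝ) * A.ncard) ≤ (c : ℝ) * P.ncard := by
    have h5 : ((bdry S (f ⁻¹' A)).ncard : ℝ) ≤ (c : ℝ) * P.ncard := by
      have := h3.trans h2.le
      exact_mod_cast this
    rw [hB] at h1
    push_cast at h1
    exact h1.trans h5
  have hc' : (0 : ℝ) < c := by exact_mod_cast hcpos
  have h5 : (c : ℝ) * (ε * A.ncard) ≤ (c : ℝ) * P.ncard := by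
    calc (c : ℝ) * (ε * A.ncard) = ε * ((c : ℝ) * A.ncard) := by ring
      _ ≤ _ := h4
  exact le_of_mul_le_mul_left h5 hc'

open scoped LinearAlgebra.Projectivization

/-- Q1 for the groups `PSL₂(p)` is the expansion of the tiny subsets of the projective line. PROOF. From left to right: `δ = min ε (1/4)`, `converse` for `X = ℙ (ZMod p) (Fin 2 → ZMod p)` (`p + 1` points, `Projectivization.card_of_finrank_two` or so; the action of `PSL₂(p)` is pretransitive: instance from Mathlib, `IsPreprimitive`), and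
`2 |A| ≤ p + 1` if `|A| ≤ p ^ δ ≤ p ^ (1/4)` (`p ≥ 2`: `p ^ (1/4) ≤ (p + 1) / 2`). From right to left: `tiny_criterion`. -/
theorem Q1_iff (k : ℕ) :
    (∃ ε : ℝ, 0 < ε ∧ ∀ p : ℕ, ∀ _ : Fact p.Prime, ∀ S : Set (PSL2 p),
      Subgroup.closure S = ⊤ → S.ncard ≤ k → IsExpander ε S) ↔
    ∃ δ : ℝ, 0 < δ ∧ ∀ p : ℕ, ∀ _ : Fact p.Prime, ∀ S : Set (PSL2 p),
      Subgroup.closure S = ⊤ → S.ncard ≤ k →
      ∀ A : Set (ℙ (ZMod p) (Fin 2 → ZMod p)), (A.ncard : ℝ) ≤ (p : ℝ) ^ δ →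
        δ * (A.ncard : ℝ) ≤
          ({q : ℙ (ZMod p) (Fin 2 → ZMod p) × PSL2 p |
            q.1 ∈ A ∧ q.2 ∈ sy S ∧ q.2 • q.1 ∉ A}.ncard : ℝ) := by
  constructor
  · rintro ⟨ε, hε, H⟩
    refine ⟨min ε (1 / 4), lt_min hε (by norm_num), ?_⟩
    intro p hp S hS hk A hA
    have := hp
    have : NeZero p := ⟨hp.out.ne_zero⟩
    have : Finite (SL2 p) := Finite.of_injective (fun g : SL2 p => (g : Matrix (Fin 2) (Fin 2) (ZMod p))) Subtype.coe_injective
    have : Finite (PSL2 p) := Finite.of_surjective (QuotientGroup.mk : SL2 p → PSL2 p) QuotientGroup.mk_surjective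
    have : MulAction.IsPretransitive (PSL2 p) (ℙ (ZMod p) (Fin 2 → ZMod p)) := inferInstance
    have hcard : Nat.card (ℙ (ZMod p) (Fin 2 → ZMod p)) = p + 1 := by
      rw [Projectivization.card_of_finrank_two _ _ (by simp), Nat.card_eq_fintype_card, ZMod.card]
    have hp1 : (1 : ℝ) ≤ p := by exact_mod_cast hp.out.one_lt.le
    have h2 : 2 * A.ncard ≤ Nat.card (ℙ (ZMod p) (Fin 2 → ZMod p)) := by
      rw [hcard]
      have h3 : (A.ncard : ℝ) ≤ (p : ℝ) ^ (1 / 4 : ℝ) :=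
        hA.trans (Real.rpow_le_rpow_of_exponent_le hp1 (min_le_right _ _))
      set t : ℝ := (p : ℝ) ^ (1 / 4 : ℝ) with ht
      have ht1 : 1 ≤ t := Real.one_le_rpow hp1 (by norm_num)
      have ht4 : t ^ 4 = p := by
        rw [ht, ← Real.rpow_natCast, ← Real.rpow_mul (by positivity)]
        norm_num
      have h4 : (2 : ℝ) * A.ncard ≤ p + 1 := by
        rw [← ht4]
        nlinarith [sq_nonneg (t ^ 2 - 1), mul_nonneg (sub_nonneg.2 ht1) (by linarith : (0 : ℝ) ≤ t)]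
      exact_mod_cast h4
    have h5 := converse (H p hp S hS hk) A h2
    refine le_trans ?_ h5
    exact mul_le_mul_of_nonneg_right (min_le_left _ _) (by positivity)
  · rintro ⟨δ, hδ, H⟩
    obtain ⟨ε, hε, H2⟩ := tiny_criterion k δ hδ
    refine ⟨ε, hε, ?_⟩
    intro p hp S hS hk
    have := hp
    have : NeZero p := ⟨hp.out.ne_zero⟩
    have : Nonempty (ℙ (ZMod p) (Fin 2 → ZMod p)) := inferInstance
    exact H2 p hp S hS hk (ℙ (ZMod p) (Fin 2 → ZMod p)) (H p hp S hS hk)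

end Pool.Agent.Lib.MP_3bb35d_al.LE
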