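import Pool.Agent.Lib.MP_3bb35d_al.Mg.G029
import Pool.Agent.Lib.MP_3bb35d_al.Mg.G030
import Pool.Agent.Lib.MP_3bb35d_al.Mg.G033

/-!
# Non-concentration on all proper subgroups of `SL₂(p)`
-/

set_option autoImplicit false

open Finset

namespace Pool.Agent.Lib.MP_3bb35d_al.LE

open Pool.Agent.Lib.MP_3bb35d_al.UE

/-- PROOF. If `p` divides the order of `H`: `subgroup_bor` and `geo_borel`, `m = 3`. Otherwise `tor_type` and `geo_tor`, `m = 2`. -/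
theorem proper {p : ℕ} [Fact p.Prime] (hp : 5 ≤ p) (H : Subgroup (SL2 p)) (hH : H ≠ ⊤) :
    Nat.card H ≤ 240 ∨ ∃ (K : Subgroup (SL2 p)) (m : ℕ), H ≤ K ∧ m ≤ 3 ∧ Geo K m := by
  by_cases hd : p ∣ Nat.card H
  · obtain ⟨v, hv, hsub⟩ := subgroup_bor H hd hH
    obtain ⟨K, hK, hgeo⟩ := geo_borel hv
    exact Or.inr ⟨K, 3, fun g hg => (hK g).2 (hsub hg), le_rfl, hgeo⟩
  · rcases tor_type hp H hd with h | ⟨A, htr, hdet, hA⟩
    · exact Or.inl h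
    · obtain ⟨K, hK, hgeo⟩ := geo_tor (by omega) htr hdet
      exact Or.inr ⟨K, 2, fun g hg => (hK g).2 (hA g hg), by norm_num, hgeo⟩

private theorem M1_nonneg {G : Type*} [Group G] [Fintype G] {μ : G → ℝ} (h : SP μ) (r : ℕ) :
    ∀ g, 0 ≤ cpow μ r g := by
  induction r with
  | zero => exact h.nonneg
  | succ r ih => exact fun g => Finset.sum_nonneg fun x _ => mul_nonneg (ih _) (ih _)

/-- PROOF. `κ₁, p₁` from `nonconc_geo`; `κ = min κ₁ (δ / 2)`, `p0` so large that `p0 ≥ p₁`, `p0 ≥ 5`, `240 ≤ p ^ (δ / 2)` for `p ≥ p0`. By `proper` (i) `Nat.card H ≤ 240`: `2 ^ r ≤ C log p ≤ 2 ^ r'` so `r ≤ r'`; `mass_cpow_le`, `cpow_one_anti`: `mass ≤ 240 * cpow μ r' 1 ≤ 240 p ^ (-δ) ≤ p ^ (-κ)`;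
(ii) `H ≤ K`: `mass_mono`, `nonconc_geo` and `p ^ (-κ₁) ≤ p ^ (-κ)`. -/
theorem nonconc (η C δ : ℝ) (hη : 0 < η) (hC : 0 < C) (hδ : 0 < δ) :
    ∃ κ : ℝ, 0 < κ ∧ κ ≤ 1 / 4 ∧ ∃ p0 : ℕ, ∀ p : ℕ, ∀ _ : Fact p.Prime, p0 ≤ p →
      ∀ μ : SL2 p → ℝ, SP μ → ∀ T₂ : Set (SL2 p), Subgroup.closure T₂ = ⊤ →
      (∀ s ∈ T₂, η ≤ conv μ μ s) →
      ∀ r : ℕ, 1 ≤ r → (2 : ℝ) ^ r ≤ C * Real.log p → cpow μ r 1 ≤ (p : ℝ) ^ (-δ) →
      ∀ r' : ℕ, C * Real.log p ≤ 2 ^ r' → ∀ H : Subgroup (SL2 p), H ≠ ⊤ → ∀ g : SL2 p,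
        mass (cpow μ r') {x | g * x ∈ H} ≤ (p : ℝ) ^ (-κ) := by
  obtain ⟨κ₁, hκ₁, hκ₁4, p₁, h1⟩ := nonconc_geo η C δ hη hC hδ
  have hδ2 : 0 < δ / 2 := by positivity
  obtain ⟨p₂, hp₂⟩ := Filter.eventually_atTop.1
    (((tendsto_rpow_atTop hδ2).comp tendsto_natCast_atTop_atTop).eventually_ge_atTop (240 : ℝ))
  refine ⟨min κ₁ (δ / 2), lt_min hκ₁ hδ2, (min_le_left _ _).trans hκ₁4, max (max p₁ 5) p₂, ?_⟩
  intro p hprime hp μ hμ T₂ hT hη2 r hr hrC hc r' hr' H hH g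
  have hp1 : p₁ ≤ p := (le_max_left _ _).trans ((le_max_left _ _).trans hp)
  have hp5 : 5 ≤ p := (le_max_right _ _).trans ((le_max_left _ _).trans hp)
  have hp2 : (240 : ℝ) ≤ (p : ℝ) ^ (δ / 2) := hp₂ p ((le_max_right _ _).trans hp)
  have hpr : (1 : ℝ) ≤ (p : ℝ) := by
    have : 1 ≤ p := by omega
    exact_mod_cast this
  have hp0 : (0 : ℝ) < (p : ℝ) := by linarith
  have hrr : r ≤ r' := by
    have h2 : (2 : ℝ) ^ r ≤ 2 ^ r' := hrC.trans hr'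
    exact (pow_le_pow_iff_right₀ (by norm_num)).1 h2
  rcases proper hp5 H hH with h | ⟨K, m, hHK, hm, hgeo⟩
  · have hr1 : 1 ≤ r' := hr.trans hrr
    have e1 := mass_cpow_le hμ hr1 H g
    have e2 := cpow_one_anti hμ hr hrr
    have e3 : (0 : ℝ) ≤ cpow μ r' 1 := M1_nonneg hμ r' 1
    have e4 : (Nat.card H : ℝ) ≤ 240 := by exact_mod_cast h
    calc mass (cpow μ r') {x | g * x ∈ H} ≤ Nat.card H * cpow μ r' 1 := e1
      _ ≤ 240 * cpow μ r' 1 := mul_le_mul_of_nonneg_right e4 e3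
      _ ≤ 240 * (p : ℝ) ^ (-δ) := by
          apply mul_le_mul_of_nonneg_left _ (by norm_num)
          exact e2.trans hc
      _ ≤ (p : ℝ) ^ (δ / 2) * (p : ℝ) ^ (-δ) :=
          mul_le_mul_of_nonneg_right hp2 (Real.rpow_nonneg hp0.le _)
      _ = (p : ℝ) ^ (-(δ / 2)) := by
          rw [← Real.rpow_add hp0]
          congr 1
          ring
      _ ≤ (p : ℝ) ^ (-(min κ₁ (δ / 2))) :=
          Real.rpow_le_rpow_of_exponent_le hpr (neg_le_neg (min_le_right _ _))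
  · have e1 := h1 p hp1 (SL2 p) K m hm hgeo μ hμ T₂ hT hη2 r hr hrC hc r' hr' g
    have e2 : mass (cpow μ r') {x | g * x ∈ H} ≤ mass (cpow μ r') {x | g * x ∈ K} :=
      mass_mono (M1_nonneg hμ r') fun x hx => hHK hx
    exact (e2.trans e1).trans
      (Real.rpow_le_rpow_of_exponent_le hpr (neg_le_neg (min_le_left _ _)))

end Pool.Agent.Lib.MP_3bb35d_al.LE
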